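import Pool.Agent.Y158.FQ.Trip4

/-!
# Kummer classes of functions with the value one at the local point
-/

set_option autoImplicit false
set_option linter.all false

open Polynomial FF Pool.Agent.Y157.PS Pool.Agent.TH954 IsDedekindDomain NumberField

namespace Pool.Agent.Q202.TR

attribute [-instance] DivisionRing.toRatAlgebra
attribute [local instance 1] DivisionRing.toRatAlgebra

open Pool.Agent.Y158.KL (lam Kl KLem V)
open Pool.Agent.Y158.GR (fixL F_fixL plcL plcL_val)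
open Pool.Agent.Y158.FQ

section

variable {K : Type} [Field K] [NumberField K] {ℓ : ℕ}
  [hp : Fact ℓ.Prime] [hK : IsCyclotomicExtension {ℓ} ℚ K] {ζ : K} (hζ : IsPrimitiveRoot ζ ℓ)

include hK in
theorem dvd_pow_of_unit {t : Kl hζ} {i : ℤ} (n : ℕ) {c : Kl hζ} (hc : V hζ c = 1)
    (h : c = (ℓ : Kl hζ) ^ i * t ^ (ℓ ^ n)) : ((ℓ : ℤ) ^ n) ∣ i := by
  induction n generalizing i c with
  | zero => rw [pow_zero]; exact one_dvd i
  | succ n ih =>
    have h1 : c = (ℓ : Kl hζ) ^ i * (t ^ (ℓ ^ n)) ^ ℓ := by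
      rw [h, pow_succ ℓ n, pow_mul]
    obtain ⟨j, rfl⟩ := dvd_of_unit hζ hc h1
    have h2 : c = ((ℓ : Kl hζ) ^ j * t ^ (ℓ ^ n)) ^ ℓ := by
      rw [h1, mul_pow, mul_comm (ℓ : ℤ) j, zpow_mul, zpow_natCast]
    have h3 : V hζ ((ℓ : Kl hζ) ^ j * t ^ (ℓ ^ n)) = 1 := by
      rw [h2, map_pow] at hc
      rcases lt_trichotomy (V hζ ((ℓ : Kl hζ) ^ j * t ^ (ℓ ^ n))) 1 with hlt | heq | hgt
      · exact absurd hc (pow_lt_one₀ zero_le' hlt hp.out.ne_zero).ne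
      · exact heq
      · exact absurd hc (one_lt_pow₀ hgt hp.out.ne_zero).ne'
    obtain ⟨m, hm⟩ := ih h3 rfl
    exact ⟨m, by rw [hm]; ring⟩

end

section

variable {K : Type} [Field K] [NumberField K] {ℓ : ℕ}
  [hp : Fact ℓ.Prime] [hK : IsCyclotomicExtension {ℓ} ℚ K] {ζ : K} (hζ : IsPrimitiveRoot ζ ℓ)
  {F Ω B : Type} [Field F] [Field Ω] [Field B] [Algebra ℚ F] [Algebra F Ω] [Algebra ℚ Ω]
  [Algebra ℚ B] [IsScalarTower ℚ F Ω] [IsAlgClosed Ω] [Algebra.IsAlgebraic F Ω]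
  [IsAlgClosure ℚ B]
  {C : Type} [Field C] [Algebra (Kl hζ) C] [Algebra ℚ C] [Algebra ℚ (Kl hζ)]
  [IsScalarTower ℚ (Kl hζ) C] [IsAlgClosure (Kl hζ) C]

include hK hζ in
theorem trivial_classes (f : F) (N : IntermediateField F Ω)
    (s : GalSection ℚ F N B) (p : Plc ℚ N C) (hpv : s.GivenBy (Kl hζ) p)
    (h : ∀ n : ℕ, ∃ (i : ℤ) (z : N), (∀ g, s.s g z = z) ∧
      algebraMap F N f = algebraMap ℚ N ((ℓ : ℚ) ^ i) * z ^ (ℓ ^ n))
    (h1 : p.val (algebraMap F N f) 1) (n : ℕ) :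
    ∃ z : N, (∀ g, s.s g z = z) ∧ algebraMap F N f = z ^ (ℓ ^ n) := by
  haveI hcz : CharZero (Kl hζ) :=
    charZero_of_injective_algebraMap (Pool.Agent.Y158.KL.cm hζ).injective
  haveI : Normal ℚ B := IsAlgClosure.normal ℚ B
  haveI : Algebra.IsAlgebraic ℚ B := IsAlgClosure.isAlgebraic
  let x₀ : fixL s := ⟨algebraMap F N f, F_fixL s f⟩
  have hx₀W : x₀ ∈ (plcL hpv).W := by
    by_contra hn
    have h3 := plcL_val (Plc.val_inv_of_notMem hn)
    rw [map_zero] at h3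
    have h4 := h1.mul h3
    have h5 : algebraMap F N f * ((x₀⁻¹ : fixL s) : N) = 1 := by
      have hne : x₀ ≠ 0 := by
        rintro h0
        apply hn
        rw [h0]
        exact zero_mem _
      have := congrArg Subtype.val (mul_inv_cancel₀ hne)
      exact this
    rw [h5, mul_zero] at h4
    exact one_ne_zero (Plc.val_one.unique h4)
  obtain ⟨c, hc⟩ := Plc.val_of_mem hx₀W
  have hcp : p.val (algebraMap F N f) (algebraMap (Kl hζ) C c) := plcL_val hc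
  have hc1 : c = 1 := by
    apply (algebraMap (Kl hζ) C).injective
    rw [map_one]
    exact hcp.unique h1
  subst hc1
  obtain ⟨i, z, hz, hyz⟩ := h n
  obtain ⟨t, ht⟩ := val_root hζ (plcL hpv) (X := x₀) (Z := ⟨z, hz⟩) (i := i) (n := n) hc (by
    apply Subtype.ext
    exact hyz)
  obtain ⟨j, rfl⟩ := dvd_pow_of_unit hζ n (map_one _) ht
  refine ⟨algebraMap ℚ N ((ℓ : ℚ) ^ j) * z, fun g => ?_, ?_⟩
  · rw [map_mul, hz, IsScalarTower.algebraMap_apply ℚ F N, (s.s g).commutes]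
  · have e : ((ℓ : ℚ) ^ j) ^ (ℓ ^ n) = (ℓ : ℚ) ^ ((ℓ : ℤ) ^ n * j) := by
      rw [← zpow_natCast, ← zpow_mul, mul_comm j]
      push_cast
      rfl
    rw [mul_pow, hyz, ← map_pow, e]

end

section

variable {K : Type} [Field K] [NumberField K] {ℓ : ℕ}
  [hp : Fact ℓ.Prime] [hK : IsCyclotomicExtension {ℓ} ℚ K] {ζ : K} (hζ : IsPrimitiveRoot ζ ℓ)
  {F Ω B : Type} [Field F] [Field Ω] [Field B] [Algebra ℚ F] [Algebra F Ω] [Algebra ℚ Ω]
  [Algebra ℚ B] [IsScalarTower ℚ F Ω] [IsAlgClosed Ω] [Algebra.IsAlgebraic F Ω]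
  [IsAlgClosure ℚ B]
  {C : Type} [Field C] [Algebra (Kl hζ) C] [Algebra ℚ C] [IsAlgClosure (Kl hζ) C]

include hK hζ in
theorem trivial_classes' (f : F) (N : IntermediateField F Ω)
    (s : GalSection ℚ F N B) (p : Plc ℚ N C) (hpv : s.GivenBy (Kl hζ) p)
    (h : ∀ n : ℕ, ∃ (i : ℤ) (z : N), (∀ g, s.s g z = z) ∧
      algebraMap F N f = algebraMap ℚ N ((ℓ : ℚ) ^ i) * z ^ (ℓ ^ n))
    (h1 : p.val (algebraMap F N f) 1) (n : ℕ) :
    ∃ z : N, (∀ g, s.s g z = z) ∧ algebraMap F N f = z ^ (ℓ ^ n) := by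
  haveI hcz : CharZero (Kl hζ) :=
    charZero_of_injective_algebraMap (Pool.Agent.Y158.KL.cm hζ).injective
  letI iQ : Algebra ℚ (Kl hζ) := DivisionRing.toRatAlgebra
  haveI : IsScalarTower ℚ (Kl hζ) C := IsScalarTower.of_algebraMap_eq' (Subsingleton.elim _ _)
  exact trivial_classes hζ f N s p hpv h h1 n

end

end Pool.Agent.Q202.TR
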